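import Pool.Agent.HS37.CQ.Fin
import Pool.Agent.HS37.CQ.Inty
import Pool.Agent.HS37.CQ.INR1
import Pool.Agent.HS37.CQ.Inr2
import Pool.Agent.HS37.CQ.Luc
import Pool.Agent.HS37.CQ.EVL
import Pool.Agent.HS37.CQ.EXP
import Pool.Agent.HS37.CQ.Ext
import Pool.Agent.HS37.CQ.Intl
import Pool.Agent.HS37.CQ.PAR
import Pool.Agent.HS37.CQ.PRE
import Pool.Agent.HS37.CQ.Psm
import Pool.Agent.HS37.CQ.Rel
import Pool.Agent.HS37.CQ.Ram
import Pool.Agent.HS37.CQ.T3f
import Pool.Agent.HS37.CQ.T3p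
import Pool.Agent.HS37.CQ.Udv
import Pool.Agent.HS37.CQ.Conn
import Pool.Agent.HS37.CQ.Clo
import Pool.Agent.HS37.CQ.Cla
import Pool.Agent.HS37.CQ.Gex
import Pool.Agent.HS37.CQ.Vr2
import Pool.Agent.HS37.CQ.Hk2
import Pool.Agent.HS37.CQ.Bas
import Pool.Agent.HS37.CQ.TRC
import Pool.Agent.HS37.CQ.Hyp

/-!
# The supercongruences modulo `p²` attached to Ramanujan's `28 k + 3` series

`M_k = (4 k)! / k!⁴`, `m = -3 · 2^12`, `S(p) = ∑_{k < p} M_k m^(-k)`. For every prime `p > 3`, modulo `p²`: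
`S(p) ≡ (-1)^⌊x/6⌋ (4 x² - 2 p)` if `p ≡ 1 mod 12`, `S(p) ≡ -4 x y χ(x y)` if `p ≡ 5 mod 12`
(`p = x² + y²`, `x ≡ 1 mod 4`, `y` even), and `S(p) ≡ 0` if `p ≡ 3 mod 4`. This is Q2.

Proof. Let `e = (E₄(τ) - E₄(2τ)) / 240`, `s = (16 E₄(2τ) - E₄(τ)) / 15`, `P = 2 E₂(2τ) - E₂(τ)`, `h = s / e`
and `t = e s / P⁴`, on `Γ₀(2)`; `P² = s + 64 e`, `t = h / (h + 64)²`, and `P = ∑ M_n t^n` by Ramanujan's
differential equations. At the point `τ_X = (1 + 3 i) / 2` one has `1 / t = -12288` (Hecke operator `T_3` on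
`1 / t`, evaluated at the elliptic point `(1 + i) / 2`, where `1 / t` vanishes).

Primes `p = 2 δ + 1 ≡ 1 mod 4`. Forms are regarded as functions of lattices. For the sublattices `Λ'` of index
`p` put `Y(Λ') = Φ(h) (s P / e)(τ) (P / s)(Λ') - s(τ) (h + 64)^p (1 / s)(Λ')`,
`Φ(h) = ∑_{n ≤ δ} M_n h^n (h + 64)^(2 (δ - n))`. As `p² | M_n` for `p / 2 < n < p`,
`P(q) ≡ (∑_{n ≤ δ} M_n t^n) P(q^p)` modulo `p²` and `q^p`; so `∑ (Y(Λ') - p² G)^m`, with a suitable
`G ∈ ℤ[h, 4096 / h]`, has principal parts divisible by `p^(2m)` at both cusps, for all `m`, and the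
numbers `64 Y(Λ') / p²` at a CM point with integral `1 / t` are algebraic integers. For `Λ' = λ Λ` this is
`∑_{n ≤ δ} M_n c^(-n) ≡ λ² mod λ̄²`, `c = -12288`, and a second version (with the Fricke involution) covers
`p ≡ 5 mod 12`, where `2 p = |μ|²` with `μ ∈ ℤ[3i]`.

Primes `p ≡ 3 mod 4`. The form `K = ∑_{n ≤ p/4} M_n (e s)^n P^(p-1-4n)` is `≡ 1 mod p` and vanishes at
`(1 + i) / 2`; the Hecke operator `T_3` on `K²` gives `p | S(p)`. A truncated Clausen formula modulo `p²` (for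
all parameters `a ∈ ℕ`) shows that `S(p)` is modulo `p²` a square in `(ℤ/p²)[√3]`, so `p² | S(p)`.

Written with helpers 12, 34, 41, 42, 43, 53, 55, 59, 61, 70, 81, 4 and 32 (files of `Pool/Agent/HS37/CQ`).
-/

set_option autoImplicit false

open Pool.Agent.HS37.CQ Pool.Agent.HS37.SP

namespace Pool.Agent.Results.MP_b6d9c9_nt.QuarticCongruence

/-- `M_k = (4 k)! / (k!)^4` -/
def M (k : ℕ) : ℚ := ((4 * k).factorial : ℚ) / (k.factorial : ℚ) ^ 4

/-- `S(p) = ∑_{k < p} M_k m^(-k)`, `m = -3 · 2^12` -/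
def S (p : ℕ) : ℚ := ∑ k ∈ Finset.range p, M k / (-3 * 2 ^ 12) ^ k

/-- `u ≡ v mod p^r` for rational numbers: `v_p(u - v) ≥ r` -/
def Congr (p r : ℕ) (u v : ℚ) : Prop := u = v ∨ (r : ℤ) ≤ padicValRat p (u - v)

/-- the Legendre symbol of `n` modulo `3` -/
def chi (n : ℤ) : ℤ := if n % 3 = 0 then 0 else if n % 3 = 1 then 1 else -1

theorem inty : S_INTY ∧ S_EVL ∧ S_INR1 := by
  have hE := t_EXP t_BAS t_EIS t_QMUL
  have hR := t_REL t_CON t_BAS hE t_CLO t_EIS t_QMUL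
  have hP := t_PRE hR t_BAS hE t_CLO t_EIS t_QMUL
  have hG := t_GEX hP
  have hP2 := t_PR2 hG t_CON hP t_CLO
  have hHK := t_HK2 t_VR2
  have hT := t_TRC hHK t_CLO
  have hI := t_INTL hT hG hP2 t_PSM t_CLO hP
  have hRam := t_RAM hR hE
  have hPar := t_PAR hRam hE
  have hH := t_HYP hPar t_UDV hE
  have hT3 := t_T3F t_CON hHK t_HQ hP hE t_CLO t_QMUL
  have hEv := t_EVL hT3 t_T3P hP hR t_BAS t_CLO
  exact ⟨t_INTY hI hH t_VR2 hR hP hE hRam t_CLO t_BAS, hEv,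
    t_INR1 (t_LUC hPar t_UDV hE) hEv t_T3P hHK hP2 hP hE t_CLO t_BAS hR⟩

lemma M_eq (k : ℕ) : M k = (uu k : ℚ) := by
  unfold M
  have h := t_UDV.2.2.2.1 k
  have h0 : (k.factorial : ℚ) ^ 4 ≠ 0 := pow_ne_zero _ (by exact_mod_cast k.factorial_ne_zero)
  rw [div_eq_iff h0]
  exact_mod_cast h.symm

lemma S_eq (p : ℕ) (hp : 0 < p) : S p * (-12288 : ℚ) ^ (p - 1) = (SN p (-12288) : ℚ) := by
  unfold S SN
  rw [Finset.sum_mul]
  push_cast
  refine Finset.sum_congr rfl fun k hk => ?_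
  rw [Finset.mem_range] at hk
  have h1 : p - 1 = k + (p - 1 - k) := by omega
  have h2 : (-3 * 2 ^ 12 : ℚ) = -12288 := by norm_num
  have h3 : (-12288 : ℚ) ^ k ≠ 0 := pow_ne_zero _ (by norm_num)
  rw [M_eq, h2]
  conv_lhs => rw [h1, pow_add]
  field_simp

/-- integer congruences to rational ones -/
lemma congr_of {p : ℕ} (hp : p.Prime) (hp3 : 3 < p) {v : ℤ}
    (h : (p : ℤ) ^ 2 ∣ SN p (-12288) - (-12288) ^ (p - 1) * v) : Congr p 2 (S p) v := by
  by_cases he : S p = (v : ℚ)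
  · exact Or.inl he
  right
  have _ : Fact p.Prime := ⟨hp⟩
  obtain ⟨z, hz⟩ := h
  have hc0 : (-12288 : ℚ) ^ (p - 1) ≠ 0 := pow_ne_zero _ (by norm_num)
  have h1 : (S p - v) * (-12288 : ℚ) ^ (p - 1) = (p : ℚ) ^ 2 * z := by
    rw [sub_mul, S_eq p hp.pos]
    have : ((SN p (-12288) - (-12288) ^ (p - 1) * v : ℤ) : ℚ) = (((p : ℤ) ^ 2 * z : ℤ) : ℚ) := by
      rw [hz]
    push_cast at this
    linear_combination this
  have h2 : S p - v ≠ 0 := sub_ne_zero.2 he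
  have hz0 : (z : ℚ) ≠ 0 := by
    intro h3
    rw [h3, mul_zero] at h1
    rcases mul_eq_zero.1 h1 with h4 | h4
    · exact h2 h4
    · exact hc0 h4
  have hp0 : (p : ℚ) ≠ 0 := by exact_mod_cast hp.ne_zero
  have hm0 : (-12288 : ℚ) ≠ 0 := by norm_num
  have h3 := congrArg (padicValRat p) h1
  rw [padicValRat.mul h2 hc0, padicValRat.mul (pow_ne_zero 2 hp0) hz0, padicValRat.pow,
    padicValRat.pow, padicValRat.self hp.one_lt] at h3
  have h4 : padicValRat p (-12288 : ℚ) = 0 := by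
    have h5 : (-12288 : ℚ) = ((-12288 : ℤ) : ℚ) := by norm_num
    rw [h5, padicValRat.of_int, padicValInt.eq_zero_of_not_dvd]
    · norm_num
    · intro h6
      have h7 : (p : ℤ) ∣ 2 ^ 12 * 3 := by
        have : (2 ^ 12 * 3 : ℤ) = - (-12288) := by norm_num
        rw [this, dvd_neg]
        exact h6
      have hpZ : Prime (p : ℤ) := Nat.prime_iff_prime_int.1 hp
      rcases hpZ.dvd_or_dvd h7 with h8 | h8
      · have h9 : p ∣ 2 := by exact_mod_cast hpZ.dvd_of_dvd_pow h8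
        have := Nat.le_of_dvd (by norm_num) h9
        omega
      · have h9 : p ∣ 3 := by exact_mod_cast h8
        have := Nat.le_of_dvd (by norm_num) h9
        omega
  rw [h4] at h3
  have h5 : 0 ≤ padicValRat p (z : ℚ) := by
    rw [padicValRat.of_int]
    positivity
  push_cast at h3 ⊢
  linarith

theorem result (p : ℕ) (hp : p.Prime) (hp3 : 3 < p) :
    (∀ x y : ℤ, p % 12 = 1 → (p : ℤ) = x ^ 2 + y ^ 2 → x % 4 = 1 → y % 2 = 0 →
      Congr p 2 (S p) ((-1) ^ ⌊(x : ℚ) / 6⌋ * (4 * x ^ 2 - 2 * p))) ∧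
    (∀ x y : ℤ, p % 12 = 5 → (p : ℤ) = x ^ 2 + y ^ 2 → x % 4 = 1 → y % 2 = 0 →
      Congr p 2 (S p) (-4 * x * y * chi (x * y))) ∧
    (p % 4 = 3 → Congr p 2 (S p) 0) := by
  obtain ⟨hY, hE, h1⟩ := inty
  obtain ⟨m1, m2, m3⟩ := main hY t_EXT hE t_UDV h1 (t_INR2 t_CLA t_UDV) hp hp3
  refine ⟨fun x y h12 hxy hx4 hy2 => ?_, fun x y h12 hxy hx4 hy2 => ?_, fun h4 => ?_⟩
  · obtain ⟨n1, n2⟩ := m1 x y h12 hxy.symm hx4 (Int.dvd_of_emod_eq_zero hy2)
    have hfl : ⌊(x : ℚ) / 6⌋ = x / 6 := by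
      have := Rat.floor_intCast_div_natCast x 6
      exact_mod_cast this
    rw [hfl]
    by_cases hx3 : (3 : ℤ) ∣ x
    · have h5 := congr_of hp hp3 (n2 hx3)
      have h6 : (-1 : ℚ) ^ (x / 6) = -1 := by
        rw [Odd.neg_one_zpow]
        rw [Int.odd_iff]
        omega
      rw [h6]
      push_cast at h5
      rw [neg_one_mul]
      exact h5
    · have h5 := congr_of hp hp3 (n1 hx3)
      have h6 : (-1 : ℚ) ^ (x / 6) = 1 := by
        rw [Even.neg_one_zpow]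
        rw [Int.even_iff]
        omega
      rw [h6]
      push_cast at h5
      rw [one_mul]
      exact h5
  · obtain ⟨n1, n2⟩ := m2 x y h12 hxy.symm hx4 (Int.dvd_of_emod_eq_zero hy2)
    have h5 : (x ^ 2 + y ^ 2) % 3 = 2 := by rw [← hxy]; omega
    have hx : x % 3 = 0 ∨ x % 3 = 1 ∨ x % 3 = 2 := by omega
    have hy : y % 3 = 0 ∨ y % 3 = 1 ∨ y % 3 = 2 := by omega
    have h6 : (x % 3 = 1 ∧ y % 3 = 1) ∨ (x % 3 = 2 ∧ y % 3 = 2) ∨ (x % 3 = 1 ∧ y % 3 = 2) ∨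
        (x % 3 = 2 ∧ y % 3 = 1) := by
      rcases hx with hx | hx | hx <;> rcases hy with hy | hy | hy <;>
        first
        | (exfalso; rw [pow_two, pow_two, Int.add_emod, Int.mul_emod, Int.mul_emod y, hx, hy] at h5
           norm_num at h5; done)
        | simp [hx, hy]
    rcases h6 with ⟨hx, hy⟩ | ⟨hx, hy⟩ | ⟨hx, hy⟩ | ⟨hx, hy⟩
    · have h7 : chi (x * y) = 1 := by
        unfold chi
        rw [Int.mul_emod, hx, hy]
        norm_num
      have h8 := congr_of hp hp3 (n2 (by omega))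
      rw [h7]
      push_cast at h8 ⊢
      have e : (-4 * x * y * 1 : ℚ) = -(4 * x * y) := by ring
      rw [e]
      exact h8
    · have h7 : chi (x * y) = 1 := by
        unfold chi
        rw [Int.mul_emod, hx, hy]
        norm_num
      have h8 := congr_of hp hp3 (n2 (by omega))
      rw [h7]
      push_cast at h8 ⊢
      have e : (-4 * x * y * 1 : ℚ) = -(4 * x * y) := by ring
      rw [e]
      exact h8
    · have h7 : chi (x * y) = -1 := by
        unfold chi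
        rw [Int.mul_emod, hx, hy]
        norm_num
      have h8 := congr_of hp hp3 (n1 (by omega))
      rw [h7]
      push_cast at h8 ⊢
      have e : (-4 * x * y * -1 : ℚ) = 4 * x * y := by ring
      rw [e]
      exact h8
    · have h7 : chi (x * y) = -1 := by
        unfold chi
        rw [Int.mul_emod, hx, hy]
        norm_num
      have h8 := congr_of hp hp3 (n1 (by omega))
      rw [h7]
      push_cast at h8 ⊢
      have e : (-4 * x * y * -1 : ℚ) = 4 * x * y := by ring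
      rw [e]
      exact h8
  · have h5 := congr_of hp hp3 (v := 0) (by rw [mul_zero, sub_zero]; exact m3 h4)
    push_cast at h5
    exact h5

end Pool.Agent.Results.MP_b6d9c9_nt.QuarticCongruence
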